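import Mathlib

set_option autoImplicit false

namespace Pool.Agent.Helper39.Triples

open Finset Function

/-- Vectors of four natural numbers. -/
abbrev Vec := Fin 4 → ℕ

/-- Slot vectors: one residue vector for every scale. -/
abbrev Slot (q n : ℕ) := (i : Fin n) → Fin 4 → ZMod (q ^ (i.val + 1))

/-- Reduction modulo `p`. -/
def cst (p : ℕ) (X : Vec) : Fin 4 → ZMod p := fun i => (X i : ZMod p)

/-- Evaluation of the quadratic polynomial given by the first three coordinates. -/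
def ev {p : ℕ} (X : Fin 4 → ZMod p) (t : ZMod p) : ZMod p := X 0 + X 1 * t + X 2 * t ^ 2

/-- The encoding of a slot vector, ignoring the components `a` and `b`. -/
def E {q n p : ℕ} (e : Slot q n → ZMod p) (a b : Fin n) (k : Slot q n) : ZMod p :=
  e (update (update k a 0) b 0)

theorem E_inj {q n p : ℕ} {e : Slot q n → ZMod p} (he : Injective e) {a b : Fin n}
    {k k' : Slot q n} (h : E e a b k = E e a b k') : ∀ i, i ≠ a → i ≠ b → k i = k' i := by
  intro i hia hib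
  have h1 := congrFun (he h) i
  rwa [update_of_ne hib, update_of_ne hia, update_of_ne hib, update_of_ne hia] at h1

theorem E_congr {q n p : ℕ} {e : Slot q n → ZMod p} {a b : Fin n}
    {k k' : Slot q n} (h : ∀ i, i ≠ a → i ≠ b → k i = k' i) : E e a b k = E e a b k' := by
  unfold E
  congr 1
  funext i
  by_cases hib : i = b
  · subst hib; simp
  · rw [update_of_ne hib, update_of_ne hib]
    by_cases hia : i = a
    · subst hia; simp
    · rw [update_of_ne hia, update_of_ne hia, h i hia hib]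

/-- The set of pairs of type `(a, b)`. -/
def InP {q n p : ℕ} (e : Slot q n → ZMod p) (a b : Fin n) (X Y : Vec) : Prop :=
  (∀ i, p * q ^ (a.val + 1) ≤ X i ∧ X i < 2 * (p * q ^ (a.val + 1))) ∧
  (∀ i, p * q ^ (b.val + 1) ≤ Y i ∧ Y i < 2 * (p * q ^ (b.val + 1))) ∧
  ∃ k : Slot q n, ev (cst p X - cst p Y) ((b.val : ZMod p) + (X 3 : ZMod p)) = E e a b k

/-- The set of triples of type `(a, b, c)`. -/
def InV {q n p : ℕ} (e : Slot q n → ZMod p) (a b c : Fin n) (X Y Z : Vec) : Prop :=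
  (∀ i, p * q ^ (a.val + 1) + p ≤ X i ∧ X i < 2 * (p * q ^ (a.val + 1))) ∧
  (∀ i, p * q ^ (b.val + 1) ≤ Y i ∧
    Y i + 2 * (p * q ^ (a.val + 1)) ≤ 2 * (p * q ^ (b.val + 1))) ∧
  (∀ i, p * q ^ (c.val + 1) + 2 * (p * q ^ (a.val + 1)) + 4 * (p * q ^ (b.val + 1)) ≤
      p * ((X i + 2 * Y i + Z i) / p) ∧
    p * ((X i + 2 * Y i + Z i) / p) + p ≤ 2 * (p * q ^ (c.val + 1))) ∧
  ((Z 3 : ZMod p) = (X 3 : ZMod p)) ∧
  ((b.val : ZMod p) + (X 3 : ZMod p) ≠ (c.val : ZMod p) + (Y 3 : ZMod p)) ∧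
  ((b.val : ZMod p) + (X 3 : ZMod p) ≠
    (c.val : ZMod p) + ((X 3 : ZMod p) + (Y 3 : ZMod p))) ∧
  ((b.val : ZMod p) + (X 3 : ZMod p) ≠ (c.val : ZMod p) + (X 3 : ZMod p)) ∧
  ((c.val : ZMod p) + (Y 3 : ZMod p) ≠
    (c.val : ZMod p) + ((X 3 : ZMod p) + (Y 3 : ZMod p))) ∧
  ((c.val : ZMod p) + (Y 3 : ZMod p) ≠ (c.val : ZMod p) + (X 3 : ZMod p)) ∧
  ((c.val : ZMod p) + ((X 3 : ZMod p) + (Y 3 : ZMod p)) ≠
    (c.val : ZMod p) + (X 3 : ZMod p)) ∧
  ∃ k : Slot q n,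
    (∀ i, k a i = (((X i + 2 * Y i + Z i) / p : ℕ) : ZMod (q ^ (a.val + 1)))) ∧
    (∀ i, k b i = (((X i + 2 * Y i + Z i) / p : ℕ) : ZMod (q ^ (b.val + 1)))) ∧
    (∀ i, k c i = (((X i + 2 * Y i + Z i) / p : ℕ) : ZMod (q ^ (c.val + 1)))) ∧
    ev (cst p X - cst p Y) ((b.val : ZMod p) + (X 3 : ZMod p)) = E e a b k ∧
    ev (cst p Y - cst p Z) ((c.val : ZMod p) + (Y 3 : ZMod p)) = E e b c k ∧
    ev (cst p X + cst p Y - cst p Z)
      ((c.val : ZMod p) + ((X 3 : ZMod p) + (Y 3 : ZMod p))) = E e b c k ∧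
    ev (cst p X - cst p Y - cst p Z) ((c.val : ZMod p) + (X 3 : ZMod p)) = E e a c k

theorem cst_add (p : ℕ) (X Y : Vec) : cst p (X + Y) = cst p X + cst p Y := by
  funext i; simp [cst]

section proj

variable {q n p : ℕ} {e : Slot q n → ZMod p} {a b c : Fin n} {X Y Z : Vec}

theorem div_spec (hp : 0 < p) (L : ℕ) : p * (L / p) ≤ L ∧ L < p * (L / p) + p := by
  have h1 := Nat.div_add_mod L p
  have h2 := Nat.mod_lt L hp
  omega

theorem InV.alpha (h : InV e a b c X Y Z) : InP e a b X Y := by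
  obtain ⟨h1, h2, h3, h4, -, -, -, -, -, -, k, -, -, -, hk, -⟩ := h
  refine ⟨fun i => ?_, fun i => ?_, k, hk⟩
  · have := h1 i; omega
  · have := h1 i; have := h2 i; omega

theorem InV.beta (hp : 0 < p) (h : InV e a b c X Y Z) : InP e b c Y Z := by
  obtain ⟨h1, h2, h3, h4, -, -, -, -, -, -, k, -, -, -, -, hk, -⟩ := h
  refine ⟨fun i => ?_, fun i => ?_, k, hk⟩
  · have := h1 i; have := h2 i; omega
  · have := h1 i; have := h2 i; have := h3 i; have := div_spec hp (X i + 2 * Y i + Z i); omega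

theorem InV.gamma (hp : 0 < p) (h : InV e a b c X Y Z) : InP e b c (X + Y) Z := by
  obtain ⟨h1, h2, h3, h4, -, -, -, -, -, -, k, -, -, -, -, -, hk, -⟩ := h
  refine ⟨fun i => ?_, fun i => ?_, k, ?_⟩
  · have := h1 i; have := h2 i; simp only [Pi.add_apply]; omega
  · have := h1 i; have := h2 i; have := h3 i; have := div_spec hp (X i + 2 * Y i + Z i); omega
  · rw [cst_add, Pi.add_apply, Nat.cast_add]; exact hk

theorem InV.delta (hp : 0 < p) (h : InV e a b c X Y Z) : InP e a c X (Y + Z) := by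
  obtain ⟨h1, h2, h3, h4, -, -, -, -, -, -, k, -, -, -, -, -, -, hk⟩ := h
  refine ⟨fun i => ?_, fun i => ?_, k, ?_⟩
  · have := h1 i; omega
  · have := h1 i; have := h2 i; have := h3 i; have := div_spec hp (X i + 2 * Y i + Z i)
    simp only [Pi.add_apply]; omega
  · rw [cst_add, ← sub_sub]; exact hk

end proj

/-- A quadratic polynomial with three distinct zeros vanishes. -/
theorem interp0 {F : Type*} [Field F] {t1 t2 t3 : F} (h12 : t1 ≠ t2) (h13 : t1 ≠ t3)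
    (h23 : t2 ≠ t3) {x y z : F} (h1 : x + y * t1 + z * t1 ^ 2 = 0)
    (h2 : x + y * t2 + z * t2 ^ 2 = 0) (h3 : x + y * t3 + z * t3 ^ 2 = 0) :
    x = 0 ∧ y = 0 ∧ z = 0 := by
  have e12 : y + z * (t1 + t2) = 0 := by
    have : (t1 - t2) * (y + z * (t1 + t2)) = 0 := by linear_combination h1 - h2
    exact (mul_eq_zero.1 this).resolve_left (sub_ne_zero.2 h12)
  have e13 : y + z * (t1 + t3) = 0 := by
    have : (t1 - t3) * (y + z * (t1 + t3)) = 0 := by linear_combination h1 - h3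
    exact (mul_eq_zero.1 this).resolve_left (sub_ne_zero.2 h13)
  have hz : z = 0 := by
    have : (t2 - t3) * z = 0 := by linear_combination e12 - e13
    exact (mul_eq_zero.1 this).resolve_left (sub_ne_zero.2 h23)
  subst hz
  have hy : y = 0 := by linear_combination e12
  subst hy
  exact ⟨by linear_combination h1, rfl, rfl⟩

/-- Interpolation at three distinct points. -/
theorem interp {F : Type*} [Field F] {t1 t2 t3 : F} (h12 : t1 ≠ t2) (h13 : t1 ≠ t3)
    (h23 : t2 ≠ t3) (v1 v2 v3 : F) : ∃ x y z : F, x + y * t1 + z * t1 ^ 2 = v1 ∧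
    x + y * t2 + z * t2 ^ 2 = v2 ∧ x + y * t3 + z * t3 ^ 2 = v3 := by
  have d12 : t1 - t2 ≠ 0 := sub_ne_zero.2 h12
  have d13 : t1 - t3 ≠ 0 := sub_ne_zero.2 h13
  have d23 : t2 - t3 ≠ 0 := sub_ne_zero.2 h23
  obtain ⟨c12, hc12⟩ : ∃ c, (t1 - t2) * c = v1 - v2 := ⟨(v1 - v2) / (t1 - t2), by field_simp⟩
  obtain ⟨c13, hc13⟩ : ∃ c, (t1 - t3) * c = v1 - v3 := ⟨(v1 - v3) / (t1 - t3), by field_simp⟩
  obtain ⟨z, hz⟩ : ∃ z, (t2 - t3) * z = c12 - c13 := ⟨(c12 - c13) / (t2 - t3), by field_simp⟩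
  refine ⟨v1 - (c12 - z * (t1 + t2)) * t1 - z * t1 ^ 2, c12 - z * (t1 + t2), z, by ring, ?_, ?_⟩
  · linear_combination -hc12
  · linear_combination (-1 : F) * hc13 + (t1 - t3) * hz

theorem eq_of_block {p : ℕ} {L L' : ℕ} (h : L / p = L' / p)
    (h' : (L : ZMod p) = (L' : ZMod p)) : L = L' := by
  have h1 := (ZMod.natCast_eq_natCast_iff' L L' p).1 h'
  have h2 := Nat.div_add_mod L p
  have h3 := Nat.div_add_mod L' p
  rw [← h2, ← h3, h, h1]

theorem eq_of_close {Λ p : ℕ} {u v : ℕ} (h : (u : ZMod Λ) = (v : ZMod Λ))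
    (h1 : p * u < p * v + p * Λ) (h2 : p * v < p * u + p * Λ) : u = v := by
  have h3 : u < v + Λ := by
    rw [← mul_add] at h1
    exact lt_of_mul_lt_mul_left h1 (Nat.zero_le _)
  have h4 : v < u + Λ := by
    rw [← mul_add] at h2
    exact lt_of_mul_lt_mul_left h2 (Nat.zero_le _)
  have h5 : u ≡ v [MOD Λ] := (ZMod.natCast_eq_natCast_iff u v Λ).1 h
  apply h5.eq_of_abs_lt
  rw [abs_lt]
  constructor <;> push_cast <;> omega

end Pool.Agent.Helper39.Triples
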