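import Pool.Agent.Helper39.Triples1

set_option autoImplicit false

namespace Pool.Agent.Helper39.Triples

open Finset Function

variable {q n p : ℕ} {e : Slot q n → ZMod p} {a b c : Fin n}

theorem cast_eq_of {L L' : ℕ} {m : ℕ} (h : L = L') : (L : ZMod m) = (L' : ZMod m) := by rw [h]

/-- Common part: if the slot vectors agree outside of two components and the `κ` agree then the
slot vectors agree. -/
theorem slot_eq {k k' : Slot q n} {κ κ' : Fin 4 → ℕ} (hκ : ∀ i, κ i = κ' i)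
    (ha : ∀ i, k a i = ((κ i : ℕ) : ZMod (q ^ (a.val + 1))))
    (hb : ∀ i, k b i = ((κ i : ℕ) : ZMod (q ^ (b.val + 1))))
    (hc : ∀ i, k c i = ((κ i : ℕ) : ZMod (q ^ (c.val + 1))))
    (ha' : ∀ i, k' a i = ((κ' i : ℕ) : ZMod (q ^ (a.val + 1))))
    (hb' : ∀ i, k' b i = ((κ' i : ℕ) : ZMod (q ^ (b.val + 1))))
    (hc' : ∀ i, k' c i = ((κ' i : ℕ) : ZMod (q ^ (c.val + 1))))
    (h : ∀ i, i ≠ a → i ≠ b → i ≠ c → k i = k' i) : k = k' := by
  funext i
  by_cases hia : i = a
  · subst hia; funext j; rw [ha, ha', hκ]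
  by_cases hib : i = b
  · subst hib; funext j; rw [hb, hb', hκ]
  by_cases hic : i = c
  · subst hic; funext j; rw [hc, hc', hκ]
  exact h i hia hib hic

theorem inj_alpha [Fact p.Prime] (he : Injective e) (hac : a ≠ c) (hbc : b ≠ c)
    {X Y Z Z' : Vec} (h : InV e a b c X Y Z) (h' : InV e a b c X Y Z') : Z = Z' := by
  have hp : 0 < p := (Fact.out : p.Prime).pos
  obtain ⟨h1, h2, h3, h4, n1, n2, n3, n4, n5, n6, k, ka, kb, kc, eα, eβ, eγ, eδ⟩ := h
  obtain ⟨-, -, h3', h4', -, -, -, -, -, -, k', ka', kb', kc', eα', eβ', eγ', eδ'⟩ := h'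
  have hk := E_inj he (eα.symm.trans eα')
  have hκ : ∀ i, (X i + 2 * Y i + Z i) / p = (X i + 2 * Y i + Z' i) / p := by
    intro i
    have hc := congrFun (hk c hac.symm hbc.symm) i
    rw [kc, kc'] at hc
    have := h3 i
    have := h3' i
    exact eq_of_close (p := p) hc (by omega) (by omega)
  have hkk : k = k' := slot_eq hκ ka kb kc ka' kb' kc' (fun i ha hb _ => hk i ha hb)
  subst hkk
  have eβ2 := eβ.trans eβ'.symm
  have eγ2 := eγ.trans eγ'.symm
  have eδ2 := eδ.trans eδ'.symm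
  simp only [ev, cst, Pi.sub_apply, Pi.add_apply] at eβ2 eγ2 eδ2
  obtain ⟨z0, z1, z2⟩ := interp0 (x := (Z 0 : ZMod p) - Z' 0) (y := (Z 1 : ZMod p) - Z' 1)
    (z := (Z 2 : ZMod p) - Z' 2) n4 n5 n6 (by linear_combination -eβ2)
    (by linear_combination -eγ2) (by linear_combination -eδ2)
  have z3 : (Z 3 : ZMod p) - Z' 3 = 0 := by rw [h4, h4', sub_self]
  funext i
  have hz : (Z i : ZMod p) = Z' i := by
    rw [← sub_eq_zero]
    fin_cases i <;> assumption
  have := eq_of_block (hκ i) (by push_cast; rw [hz])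
  omega

theorem inj_beta [Fact p.Prime] (he : Injective e) (hab : a ≠ b) (hac : a ≠ c)
    {X X' Y Z : Vec} (h : InV e a b c X Y Z) (h' : InV e a b c X' Y Z) : X = X' := by
  have hp : 0 < p := (Fact.out : p.Prime).pos
  obtain ⟨h1, h2, h3, h4, n1, n2, n3, n4, n5, n6, k, ka, kb, kc, eα, eβ, eγ, eδ⟩ := h
  obtain ⟨h1', -, h3', h4', -, -, -, -, -, -, k', ka', kb', kc', eα', eβ', eγ', eδ'⟩ := h'
  have hk := E_inj he (eβ.symm.trans eβ')
  have hκ : ∀ i, (X i + 2 * Y i + Z i) / p = (X' i + 2 * Y i + Z i) / p := by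
    intro i
    have hc := congrFun (hk a hab hac) i
    rw [ka, ka'] at hc
    have := h1 i
    have := h1' i
    have := div_spec hp (X i + 2 * Y i + Z i)
    have := div_spec hp (X' i + 2 * Y i + Z i)
    exact eq_of_close (p := p) hc (by omega) (by omega)
  have hkk : k = k' := slot_eq hκ ka kb kc ka' kb' kc' (fun i _ hb hc => hk i hb hc)
  subst hkk
  have z3 : (X 3 : ZMod p) = X' 3 := by rw [← h4, ← h4']
  have eα2 := eα.trans eα'.symm
  have eγ2 := eγ.trans eγ'.symm
  have eδ2 := eδ.trans eδ'.symm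
  rw [← z3] at eα2 eγ2 eδ2
  simp only [ev, cst, Pi.sub_apply, Pi.add_apply] at eα2 eγ2 eδ2
  obtain ⟨z0, z1, z2⟩ := interp0 (x := (X 0 : ZMod p) - X' 0) (y := (X 1 : ZMod p) - X' 1)
    (z := (X 2 : ZMod p) - X' 2) n2 n3 n6 (by linear_combination eα2)
    (by linear_combination eγ2) (by linear_combination eδ2)
  have z3 : (X 3 : ZMod p) - X' 3 = 0 := by rw [z3, sub_self]
  funext i
  have hz : (X i : ZMod p) = X' i := by
    rw [← sub_eq_zero]
    fin_cases i <;> assumption
  have := eq_of_block (hκ i) (by push_cast; rw [hz])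
  omega

theorem inj_gamma [Fact p.Prime] (hp2 : p ≠ 2) (he : Injective e) (hab : a ≠ b) (hac : a ≠ c)
    {X X' Y Y' Z : Vec} (h : InV e a b c X Y Z) (h' : InV e a b c X' Y' Z)
    (hw : X + Y = X' + Y') : X = X' ∧ Y = Y' := by
  have hp : 0 < p := (Fact.out : p.Prime).pos
  have h2ne : (2 : ZMod p) ≠ 0 := by
    intro h0
    have h1 : ((2 : ℕ) : ZMod p) = 0 := by exact_mod_cast h0
    rw [ZMod.natCast_eq_zero_iff] at h1
    exact hp2 ((Nat.prime_dvd_prime_iff_eq Fact.out Nat.prime_two).1 h1)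
  have hw' : ∀ i, X i + Y i = X' i + Y' i := fun i => congrFun hw i
  have hwp : ∀ i, (X i : ZMod p) + Y i = X' i + Y' i := fun i => by
    have := hw' i
    exact_mod_cast congrArg (fun m : ℕ => (m : ZMod p)) this
  obtain ⟨h1, h2, h3, h4, n1, n2, n3, n4, n5, n6, k, ka, kb, kc, eα, eβ, eγ, eδ⟩ := h
  obtain ⟨h1', -, h3', h4', -, -, -, -, -, -, k', ka', kb', kc', eα', eβ', eγ', eδ'⟩ := h'
  have hγ : cst p X + cst p Y = cst p X' + cst p Y' := by
    rw [← cst_add, ← cst_add, hw]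
  rw [← hγ, ← hwp 3] at eγ'
  have hk := E_inj he (eγ.symm.trans eγ')
  have hκ : ∀ i, (X i + 2 * Y i + Z i) / p = (X' i + 2 * Y' i + Z i) / p := by
    intro i
    have hc := congrFun (hk a hab hac) i
    rw [ka, ka'] at hc
    have := h1 i
    have := h1' i
    have := hw' i
    have := div_spec hp (X i + 2 * Y i + Z i)
    have := div_spec hp (X' i + 2 * Y' i + Z i)
    exact eq_of_close (p := p) hc (by omega) (by omega)
  have hkk : k = k' := slot_eq hκ ka kb kc ka' kb' kc' (fun i _ hb hc => hk i hb hc)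
  subst hkk
  have z3 : (X 3 : ZMod p) = X' 3 := by rw [← h4, ← h4']
  have y3 : (Y 3 : ZMod p) = Y' 3 := by
    have := hwp 3
    rw [z3] at this
    exact add_left_cancel this
  have eα2 := eα.trans eα'.symm
  have eβ2 := eβ.trans eβ'.symm
  have eδ2 := eδ.trans eδ'.symm
  rw [← z3] at eα2 eδ2
  rw [← y3] at eβ2
  simp only [ev, cst, Pi.sub_apply] at eα2 eβ2 eδ2
  have w0 := hwp 0
  have w1 := hwp 1
  have w2 := hwp 2
  obtain ⟨z0, z1, z2⟩ := interp0 (x := (X 0 : ZMod p) - X' 0) (y := (X 1 : ZMod p) - X' 1)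
    (z := (X 2 : ZMod p) - X' 2) n1 n3 n5
    (by
      apply (mul_eq_zero.1 _).resolve_left h2ne
      linear_combination eα2 + w0 + w1 * ((b.val : ZMod p) + X 3) +
        w2 * ((b.val : ZMod p) + X 3) ^ 2)
    (by linear_combination -eβ2 + w0 + w1 * ((c.val : ZMod p) + Y 3) +
        w2 * ((c.val : ZMod p) + Y 3) ^ 2)
    (by
      apply (mul_eq_zero.1 _).resolve_left h2ne
      linear_combination eδ2 + w0 + w1 * ((c.val : ZMod p) + X 3) +
        w2 * ((c.val : ZMod p) + X 3) ^ 2)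
  have z3 : (X 3 : ZMod p) - X' 3 = 0 := by rw [z3, sub_self]
  have hX : X = X' := by
    funext i
    have hz : (X i : ZMod p) = X' i := by
      rw [← sub_eq_zero]
      fin_cases i <;> assumption
    have hy : (Y i : ZMod p) = Y' i := by
      have := hwp i
      rw [hz] at this
      exact add_left_cancel this
    have := eq_of_block (hκ i) (by push_cast; rw [hz, hy])
    have := hw' i
    omega
  refine ⟨hX, ?_⟩
  subst hX
  exact add_left_cancel hw

theorem inj_delta [Fact p.Prime] (hp2 : p ≠ 2) (he : Injective e) (hq : 0 < q) (hab : a ≠ b)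
    (hbc : b ≠ c)
    {X Y Y' Z Z' : Vec} (h : InV e a b c X Y Z) (h' : InV e a b c X Y' Z')
    (hw : Y + Z = Y' + Z') : Y = Y' ∧ Z = Z' := by
  have hp : 0 < p := (Fact.out : p.Prime).pos
  have h2ne : (2 : ZMod p) ≠ 0 := by
    intro h0
    have h1 : ((2 : ℕ) : ZMod p) = 0 := by exact_mod_cast h0
    rw [ZMod.natCast_eq_zero_iff] at h1
    exact hp2 ((Nat.prime_dvd_prime_iff_eq Fact.out Nat.prime_two).1 h1)
  have hw' : ∀ i, Y i + Z i = Y' i + Z' i := fun i => congrFun hw i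
  have hwp : ∀ i, (Y i : ZMod p) + Z i = Y' i + Z' i := fun i => by
    have := hw' i
    exact_mod_cast congrArg (fun m : ℕ => (m : ZMod p)) this
  obtain ⟨h1, h2, h3, h4, n1, n2, n3, n4, n5, n6, k, ka, kb, kc, eα, eβ, eγ, eδ⟩ := h
  obtain ⟨-, h2', h3', h4', -, -, -, -, -, -, k', ka', kb', kc', eα', eβ', eγ', eδ'⟩ := h'
  have hδ : cst p X - cst p Y - cst p Z = cst p X - cst p Y' - cst p Z' := by
    rw [sub_sub, sub_sub, ← cst_add, ← cst_add, hw]
  rw [← hδ] at eδ'
  have hk := E_inj he (eδ.symm.trans eδ')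
  have hpA : p ≤ p * q ^ (a.val + 1) := Nat.le_mul_of_pos_right _ (pow_pos hq _)
  have hκ : ∀ i, (X i + 2 * Y i + Z i) / p = (X i + 2 * Y' i + Z' i) / p := by
    intro i
    have hc := congrFun (hk b hab.symm hbc) i
    rw [kb, kb'] at hc
    have := h2 i
    have := h2' i
    have := hw' i
    have := div_spec hp (X i + 2 * Y i + Z i)
    have := div_spec hp (X i + 2 * Y' i + Z' i)
    exact eq_of_close (p := p) hc (by omega) (by omega)
  have hkk : k = k' := slot_eq hκ ka kb kc ka' kb' kc' (fun i ha _ hc => hk i ha hc)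
  subst hkk
  have z3 : (Z 3 : ZMod p) = Z' 3 := by rw [h4, h4']
  have y3 : (Y 3 : ZMod p) = Y' 3 := by
    have := hwp 3
    rw [z3] at this
    exact add_right_cancel this
  have eα2 := eα.trans eα'.symm
  have eβ2 := eβ.trans eβ'.symm
  have eγ2 := eγ.trans eγ'.symm
  rw [← y3] at eβ2 eγ2
  simp only [ev, cst, Pi.sub_apply, Pi.add_apply] at eα2 eβ2 eγ2
  have w0 := hwp 0
  have w1 := hwp 1
  have w2 := hwp 2
  obtain ⟨z0, z1, z2⟩ := interp0 (x := (Y 0 : ZMod p) - Y' 0) (y := (Y 1 : ZMod p) - Y' 1)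
    (z := (Y 2 : ZMod p) - Y' 2) n1 n2 n4
    (by linear_combination -eα2)
    (by
      apply (mul_eq_zero.1 _).resolve_left h2ne
      linear_combination eβ2 + w0 + w1 * ((c.val : ZMod p) + Y 3) +
        w2 * ((c.val : ZMod p) + Y 3) ^ 2)
    (by
      apply (mul_eq_zero.1 _).resolve_left h2ne
      linear_combination eγ2 + w0 + w1 * ((c.val : ZMod p) + (X 3 + Y 3)) +
        w2 * ((c.val : ZMod p) + (X 3 + Y 3)) ^ 2)
  have z3 : (Y 3 : ZMod p) - Y' 3 = 0 := by rw [y3, sub_self]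
  have hX : Y = Y' := by
    funext i
    have hz : (Y i : ZMod p) = Y' i := by
      rw [← sub_eq_zero]
      fin_cases i <;> assumption
    have hy : (Z i : ZMod p) = Z' i := by
      have := hwp i
      rw [hz] at this
      exact add_left_cancel this
    have := eq_of_block (hκ i) (by push_cast; rw [hz, hy])
    have := hw' i
    omega
  refine ⟨hX, ?_⟩
  subst hX
  exact add_left_cancel hw

end Pool.Agent.Helper39.Triples
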