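import Pool.Agent.Helper39.Triples2

set_option autoImplicit false

namespace Pool.Agent.Helper39.Triples

open Finset Function

/-- Parameter space. -/
abbrev Om (q n p : ℕ) :=
  Slot q n × (ZMod p × ZMod p) × (ZMod p × ZMod p × ZMod p × ZMod p × ZMod p)

/-- The correspondence between pairs of type `(a, b)` and parameters. -/
def Rel {q n p : ℕ} (e : Slot q n → ZMod p) (a b : Fin n) (X Y : Vec) (ω : Om q n p) : Prop :=
  (∀ i, ω.1 a i = ((X i / p : ℕ) : ZMod (q ^ (a.val + 1)))) ∧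
  (∀ i, ω.1 b i = ((Y i / p : ℕ) : ZMod (q ^ (b.val + 1)))) ∧
  ω.2.1.1 = (X 3 : ZMod p) ∧ ω.2.1.2 = (Y 3 : ZMod p) ∧
  ω.2.2.1 = (X 0 : ZMod p) ∧ ω.2.2.2.1 = (X 1 : ZMod p) ∧ ω.2.2.2.2.1 = (X 2 : ZMod p) ∧
  ω.2.2.2.2.2.1 = (Y 1 : ZMod p) ∧ ω.2.2.2.2.2.2 = (Y 2 : ZMod p) ∧
  ev (cst p X - cst p Y) ((b.val : ZMod p) + (X 3 : ZMod p)) = E e a b ω.1

variable {q n p : ℕ} {e : Slot q n → ZMod p} {a b c : Fin n}

theorem Rel.fun (he : Injective e) {X Y : Vec} {ω ω' : Om q n p}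
    (h : Rel e a b X Y ω) (h' : Rel e a b X Y ω') : ω = ω' := by
  obtain ⟨h1, h2, h3, h4, h5, h6, h7, h8, h9, h10⟩ := h
  obtain ⟨h1', h2', h3', h4', h5', h6', h7', h8', h9', h10'⟩ := h'
  have hk := E_inj he (h10.symm.trans h10')
  have hkk : ω.1 = ω'.1 := by
    funext i
    by_cases hia : i = a
    · subst hia; funext j; rw [h1, h1']
    by_cases hib : i = b
    · subst hib; funext j; rw [h2, h2']
    exact hk i hia hib
  obtain ⟨k, ⟨x, y⟩, r0, r1, r2, r3, r4⟩ := ω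
  obtain ⟨k', ⟨x', y'⟩, r0', r1', r2', r3', r4'⟩ := ω'
  simp only at *
  subst hkk h3 h4 h5 h6 h7 h8 h9 h3' h4' h5' h6' h7' h8' h9'
  rfl

theorem block_eq (hp : 0 < p) {Λ x y : ℕ} (hx : p * Λ ≤ x ∧ x < 2 * (p * Λ))
    (hy : p * Λ ≤ y ∧ y < 2 * (p * Λ))
    (h : ((x / p : ℕ) : ZMod Λ) = ((y / p : ℕ) : ZMod Λ)) : x / p = y / p := by
  have h1 := div_spec hp x
  have h2 := div_spec hp y
  have h3 : Λ ≤ x / p := (Nat.le_div_iff_mul_le hp).2 (by rw [mul_comm]; exact hx.1)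
  have h4 : Λ ≤ y / p := (Nat.le_div_iff_mul_le hp).2 (by rw [mul_comm]; exact hy.1)
  have h5 : p * Λ ≤ p * (x / p) := Nat.mul_le_mul_left _ h3
  have h6 : p * Λ ≤ p * (y / p) := Nat.mul_le_mul_left _ h4
  exact eq_of_close (p := p) h (by omega) (by omega)

theorem Rel.inj (hp : 0 < p) {X Y X' Y' : Vec} {ω : Om q n p}
    (hP : InP e a b X Y) (hP' : InP e a b X' Y')
    (h : Rel e a b X Y ω) (h' : Rel e a b X' Y' ω) : X = X' ∧ Y = Y' := by
  obtain ⟨h1, h2, h3, h4, h5, h6, h7, h8, h9, h10⟩ := h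
  obtain ⟨h1', h2', h3', h4', h5', h6', h7', h8', h9', h10'⟩ := h'
  have x3 := h3.symm.trans h3'
  have y3 := h4.symm.trans h4'
  have x0 := h5.symm.trans h5'
  have x1 := h6.symm.trans h6'
  have x2 := h7.symm.trans h7'
  have y1 := h8.symm.trans h8'
  have y2 := h9.symm.trans h9'
  have hX : X = X' := by
    funext i
    apply eq_of_block (p := p)
    · exact block_eq hp (hP.1 i) (hP'.1 i) ((h1 i).symm.trans (h1' i))
    · fin_cases i <;> assumption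
  subst hX
  refine ⟨rfl, ?_⟩
  have y0 : (Y 0 : ZMod p) = Y' 0 := by
    have := h10.trans h10'.symm
    simp only [ev, cst, Pi.sub_apply] at this
    linear_combination -this - ((b.val : ZMod p) + X 3) * y1 -
      ((b.val : ZMod p) + X 3) ^ 2 * y2
  funext i
  apply eq_of_block (p := p)
  · exact block_eq hp (hP.2.1 i) (hP'.2.1 i) ((h2 i).symm.trans (h2' i))
  · fin_cases i <;> assumption

theorem Rel.total (hab : a ≠ b) {X Y : Vec} (hP : InP e a b X Y) :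
    ∃ ω : Om q n p, Rel e a b X Y ω := by
  obtain ⟨-, -, k, hk⟩ := hP
  refine ⟨(update (update k a (fun i => ((X i / p : ℕ) : ZMod (q ^ (a.val + 1))))) b
    (fun i => ((Y i / p : ℕ) : ZMod (q ^ (b.val + 1)))), ((X 3 : ZMod p), (Y 3 : ZMod p)),
    (X 0 : ZMod p), (X 1 : ZMod p), (X 2 : ZMod p), (Y 1 : ZMod p), (Y 2 : ZMod p)),
    ?_, ?_, rfl, rfl, rfl, rfl, rfl, rfl, rfl, ?_⟩
  · intro i
    simp only
    rw [update_of_ne hab, update_self]
  · intro i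
    simp only
    rw [update_self]
  · simp only
    rw [hk]
    apply E_congr
    intro i hia hib
    rw [update_of_ne hib, update_of_ne hia]

/-- Restricted residues. -/
def T (q i : ℕ) : Finset (ZMod (q ^ (i + 1))) :=
  (Ico (q ^ (i + 1) + 6 * q ^ i) (2 * q ^ (i + 1) - 6 * q ^ i)).image
    (fun u : ℕ => (u : ZMod (q ^ (i + 1))))

theorem card_T (q i : ℕ) (hq : 12 ≤ q) : (T q i).card = q ^ i * (q - 12) := by
  unfold T
  rw [card_image_of_injOn, Nat.card_Ico]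
  · obtain ⟨r, rfl⟩ := Nat.exists_eq_add_of_le hq
    rw [Nat.add_sub_cancel_left, pow_succ]
    have : 2 * ((12 + r) ^ i * (12 + r)) = 24 * (12 + r) ^ i + 2 * ((12 + r) ^ i * r) := by ring
    have h2 : (12 + r) ^ i * (12 + r) = 12 * (12 + r) ^ i + (12 + r) ^ i * r := by ring
    omega
  · intro u hu v hv huv
    simp only [coe_Ico, Set.mem_Ico] at hu hv
    simp only at huv
    apply eq_of_close (p := 1) huv <;> omega

theorem mem_T {q i : ℕ} {z : ZMod (q ^ (i + 1))} (h : z ∈ T q i) :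
    ∃ u : ℕ, q ^ (i + 1) + 6 * q ^ i ≤ u ∧ u + 6 * q ^ i < 2 * q ^ (i + 1) ∧
      (u : ZMod (q ^ (i + 1))) = z := by
  unfold T at h
  rw [mem_image] at h
  obtain ⟨u, hu, rfl⟩ := h
  rw [mem_Ico] at hu
  exact ⟨u, hu.1, by omega, rfl⟩

/-- Good pairs of fourth coordinates. -/
def Good {p : ℕ} (b c : ZMod p) (xy : ZMod p × ZMod p) : Prop :=
  (b + xy.1 ≠ c + xy.2) ∧ (b + xy.1 ≠ c + (xy.1 + xy.2)) ∧ (b + xy.1 ≠ c + xy.1) ∧
  (c + xy.2 ≠ c + (xy.1 + xy.2)) ∧ (c + xy.2 ≠ c + xy.1) ∧ (c + (xy.1 + xy.2) ≠ c + xy.1)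

theorem exists_Z (hp : 0 < p) [NeZero p] {m w : ℕ} (h : m ≤ p * w) (z : ZMod p) :
    ∃ Z : ℕ, (m + Z) / p = w ∧ (Z : ZMod p) = z := by
  refine ⟨p * w + (z + (m : ZMod p)).val - m, ?_, ?_⟩
  · rw [Nat.add_sub_cancel' (by omega), Nat.mul_add_div hp, Nat.div_eq_of_lt (ZMod.val_lt _),
      add_zero]
  · rw [Nat.cast_sub (by omega)]
    push_cast
    rw [ZMod.natCast_zmod_val]
    simp

theorem Rel.lift [Fact p.Prime] (hq : 12 ≤ q) (hab : a < b) (hbc : b < c) (ω : Om q n p)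
    (hk : ∀ i j, ω.1 i j ∈ T q i.val)
    (hg : Good (b.val : ZMod p) (c.val : ZMod p) ω.2.1) :
    ∃ X Y Z : Vec, InV e a b c X Y Z ∧ Rel e a b X Y ω := by
  have hp : 0 < p := (Fact.out : p.Prime).pos
  have hq0 : 0 < q := by omega
  have : NeZero p := ⟨hp.ne'⟩
  obtain ⟨k, ⟨x, y⟩, r0, r1, r2, r3, r4⟩ := ω
  obtain ⟨n1, n2, n3, n4, n5, n6⟩ := hg
  simp only at hk n1 n2 n3 n4 n5 n6
  have hu := fun j => mem_T (hk a j)
  have hv := fun j => mem_T (hk b j)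
  have hw := fun j => mem_T (hk c j)
  choose u hu1 hu2 hu3 using hu
  choose v hv1 hv2 hv3 using hv
  choose w hw1 hw2 hw3 using hw
  -- magnitudes
  have hA1 : 0 < q ^ a.val := pow_pos hq0 _
  have hA2 : q ^ (a.val + 1) ≤ q ^ b.val := Nat.pow_le_pow_right hq0 hab
  have hB2 : q ^ (b.val + 1) ≤ q ^ c.val := Nat.pow_le_pow_right hq0 hbc
  have hB3 : q ^ b.val ≤ q ^ (b.val + 1) := Nat.pow_le_pow_right hq0 (Nat.le_succ _)
  set A := q ^ (a.val + 1) with hA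
  set B := q ^ (b.val + 1) with hB
  set C := q ^ (c.val + 1) with hC
  -- the vector X
  obtain ⟨X, hX⟩ : ∃ X : Vec, ∀ j, X j / p = u j ∧
      (X j : ZMod p) = (![r0, r1, r2, x] : Fin 4 → ZMod p) j := by
    have : ∀ j, ∃ s : ℕ, (0 + s) / p = u j ∧
        (s : ZMod p) = (![r0, r1, r2, x] : Fin 4 → ZMod p) j :=
      fun j => exists_Z hp (Nat.zero_le _) _
    choose X hX using this
    exact ⟨X, fun j => by simpa using hX j⟩
  set tα := (b.val : ZMod p) + x with htα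
  set y0 := r0 + r1 * tα + r2 * tα ^ 2 - r3 * tα - r4 * tα ^ 2 - E e a b k with hy0
  obtain ⟨Y, hY⟩ : ∃ Y : Vec, ∀ j, Y j / p = v j ∧
      (Y j : ZMod p) = (![y0, r3, r4, y] : Fin 4 → ZMod p) j := by
    have : ∀ j, ∃ s : ℕ, (0 + s) / p = v j ∧
        (s : ZMod p) = (![y0, r3, r4, y] : Fin 4 → ZMod p) j :=
      fun j => exists_Z hp (Nat.zero_le _) _
    choose Y hY using this
    exact ⟨Y, fun j => by simpa using hY j⟩
  have X0 : (X 0 : ZMod p) = r0 := (hX 0).2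
  have X1 : (X 1 : ZMod p) = r1 := (hX 1).2
  have X2 : (X 2 : ZMod p) = r2 := (hX 2).2
  have X3 : (X 3 : ZMod p) = x := (hX 3).2
  have Y0 : (Y 0 : ZMod p) = y0 := (hY 0).2
  have Y1 : (Y 1 : ZMod p) = r3 := (hY 1).2
  have Y2 : (Y 2 : ZMod p) = r4 := (hY 2).2
  have Y3 : (Y 3 : ZMod p) = y := (hY 3).2
  have hXb : ∀ j, p * A + p * (6 * q ^ a.val) ≤ X j ∧ X j < 2 * (p * A) := by
    intro j
    have h1 := div_spec hp (X j)
    rw [(hX j).1] at h1
    have h2 := Nat.mul_le_mul_left p (hu1 j)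
    rw [mul_add] at h2
    have h3 : u j + 1 ≤ 2 * A := by have := hu2 j; omega
    have h4 := Nat.mul_le_mul_left p h3
    have e1 : p * (u j + 1) = p * u j + p := by ring
    have e2 : p * (2 * A) = 2 * (p * A) := by ring
    omega
  have hYb : ∀ j, p * B ≤ Y j ∧ Y j + 2 * (p * A) ≤ 2 * (p * B) := by
    intro j
    have h1 := div_spec hp (Y j)
    rw [(hY j).1] at h1
    have h2 := Nat.mul_le_mul_left p (hv1 j)
    rw [mul_add] at h2
    have h3 : v j + 1 + 2 * A ≤ 2 * B := by have := hv2 j; omega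
    have h4 := Nat.mul_le_mul_left p h3
    have e1 : p * (v j + 1 + 2 * A) = p * v j + p + 2 * (p * A) := by ring
    have e2 : p * (2 * B) = 2 * (p * B) := by ring
    omega
  have hwb : ∀ j, p * C + 2 * (p * A) + 4 * (p * B) ≤ p * w j ∧ p * w j + p ≤ 2 * (p * C) := by
    intro j
    have h2 : C + 2 * A + 4 * B ≤ w j := by have := hw1 j; omega
    have h4 := Nat.mul_le_mul_left p h2
    have h3 : w j + 1 ≤ 2 * C := by have := hw2 j; omega
    have h5 := Nat.mul_le_mul_left p h3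
    have e1 : p * (C + 2 * A + 4 * B) = p * C + 2 * (p * A) + 4 * (p * B) := by ring
    have e2 : p * (2 * C) = 2 * (p * C) := by ring
    have e3 : p * (w j + 1) = p * w j + p := by ring
    omega
  -- the common slot vector
  set k' : Slot q n := update (update k a (fun j => ((w j : ℕ) : ZMod (q ^ (a.val + 1))))) b
    (fun j => ((w j : ℕ) : ZMod (q ^ (b.val + 1)))) with hk'
  have hca : c ≠ a := (hab.trans hbc).ne'
  have hcb : c ≠ b := hbc.ne'
  have k'a : ∀ j, k' a j = ((w j : ℕ) : ZMod (q ^ (a.val + 1))) := by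
    intro j; rw [hk', update_of_ne hab.ne, update_self]
  have k'b : ∀ j, k' b j = ((w j : ℕ) : ZMod (q ^ (b.val + 1))) := by
    intro j; rw [hk', update_self]
  have k'c : ∀ j, k' c j = ((w j : ℕ) : ZMod (q ^ (c.val + 1))) := by
    intro j; rw [hk', update_of_ne hcb, update_of_ne hca, hw3]
  have k'E : E e a b k' = E e a b k := by
    apply E_congr
    intro i hia hib
    rw [hk', update_of_ne hib, update_of_ne hia]
  -- interpolation
  obtain ⟨z0, z1, z2, hz1, hz2, hz3⟩ := interp n4 n5 n6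
    (y0 + r3 * ((c.val : ZMod p) + y) + r4 * ((c.val : ZMod p) + y) ^ 2 - E e b c k')
    ((r0 + y0) + (r1 + r3) * ((c.val : ZMod p) + (x + y)) +
      (r2 + r4) * ((c.val : ZMod p) + (x + y)) ^ 2 - E e b c k')
    ((r0 - y0) + (r1 - r3) * ((c.val : ZMod p) + x) +
      (r2 - r4) * ((c.val : ZMod p) + x) ^ 2 - E e a c k')
  obtain ⟨Z, hZ⟩ : ∃ Z : Vec, ∀ j, (X j + 2 * Y j + Z j) / p = w j ∧
      (Z j : ZMod p) = (![z0, z1, z2, x] : Fin 4 → ZMod p) j := by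
    have : ∀ j, ∃ s : ℕ, (X j + 2 * Y j + s) / p = w j ∧
        (s : ZMod p) = (![z0, z1, z2, x] : Fin 4 → ZMod p) j :=
      fun j => exists_Z hp (by have := hXb j; have := hYb j; have := hwb j; omega) _
    choose Z hZ using this
    exact ⟨Z, hZ⟩
  have Z0 : (Z 0 : ZMod p) = z0 := (hZ 0).2
  have Z1 : (Z 1 : ZMod p) = z1 := (hZ 1).2
  have Z2 : (Z 2 : ZMod p) = z2 := (hZ 2).2
  have Z3 : (Z 3 : ZMod p) = x := (hZ 3).2
  have hp6 : p ≤ p * (6 * q ^ a.val) := Nat.le_mul_of_pos_right _ (by omega)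
  refine ⟨X, Y, Z, ⟨fun j => ?_, fun j => hYb j, fun j => ?_, ?_, ?_, ?_, ?_, ?_, ?_, ?_, k',
    fun j => ?_, fun j => ?_, fun j => ?_, ?_, ?_, ?_, ?_⟩, ?_⟩
  · have := hXb j
    rw [← hA]
    omega
  · rw [(hZ j).1]; exact hwb j
  · rw [Z3, X3]
  · rw [X3, Y3]; exact n1
  · rw [X3, Y3]; exact n2
  · rw [X3]; exact n3
  · rw [X3, Y3]; exact n4
  · rw [X3, Y3]; exact n5
  · rw [X3, Y3]; exact n6
  · rw [(hZ j).1, k'a]
  · rw [(hZ j).1, k'b]
  · rw [(hZ j).1, k'c]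
  · rw [k'E]
    simp only [ev, cst, Pi.sub_apply]
    rw [X0, X1, X2, X3, Y0, Y1, Y2, hy0]
    ring
  · simp only [ev, cst, Pi.sub_apply]
    rw [Z0, Z1, Z2, Y0, Y1, Y2, Y3]
    linear_combination -hz1
  · simp only [ev, cst, Pi.sub_apply, Pi.add_apply]
    rw [X0, X1, X2, X3, Z0, Z1, Z2, Y0, Y1, Y2, Y3]
    linear_combination -hz2
  · simp only [ev, cst, Pi.sub_apply]
    rw [X0, X1, X2, X3, Z0, Z1, Z2, Y0, Y1, Y2]
    linear_combination -hz3
  · refine ⟨fun j => ?_, fun j => ?_, X3.symm, Y3.symm, X0.symm, X1.symm, X2.symm, Y1.symm,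
      Y2.symm, ?_⟩
    · simp only
      rw [(hX j).1, hu3]
    · simp only
      rw [(hY j).1, hv3]
    · simp only [ev, cst, Pi.sub_apply]
      rw [X0, X1, X2, X3, Y0, Y1, Y2, hy0]
      ring

end Pool.Agent.Helper39.Triples
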