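import Pool.Agent.Helper39.Triples3

set_option autoImplicit false

namespace Pool.Agent.Helper39.Triples

open Finset Function

open scoped Classical in
/-- The finite set of good pairs of fourth coordinates. -/
noncomputable def GoodSet {p : ℕ} [NeZero p] (b c : ZMod p) : Finset (ZMod p × ZMod p) :=
  univ.filter (Good b c)

theorem card_GoodSet {p : ℕ} [NeZero p] {b c : ZMod p} (hbc : b ≠ c) :
    p * p ≤ (GoodSet b c).card + 5 * p := by
  classical
  have h1 : (univ : Finset (ZMod p × ZMod p)) ⊆ GoodSet b c ∪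
      ((univ : Finset (ZMod p)).image (fun x => (x, b + x - c)) ∪
      ((univ : Finset (ZMod p)).image (fun x => (x, b - c)) ∪
      ((univ : Finset (ZMod p)).image (fun y => ((0 : ZMod p), y)) ∪
      ((univ : Finset (ZMod p)).image (fun x => (x, x)) ∪
      ((univ : Finset (ZMod p)).image (fun x => (x, (0 : ZMod p)))))))) := by
    rintro ⟨x, y⟩ -
    simp only [mem_union, GoodSet, mem_filter, mem_univ, true_and, mem_image, Prod.mk.injEq,
      exists_eq_left, Good]
    by_cases c1 : b + x = c + y
    · right; left; linear_combination c1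
    by_cases c2 : b + x = c + (x + y)
    · right; right; left; linear_combination c2
    by_cases c4 : c + y = c + (x + y)
    · right; right; right; left
      refine ⟨y, ?_, rfl⟩
      linear_combination c4
    by_cases c5 : c + y = c + x
    · right; right; right; right; left; linear_combination -c5
    by_cases c6 : c + (x + y) = c + x
    · right; right; right; right; right; linear_combination -c6
    left
    refine ⟨c1, c2, ?_, c4, c5, c6⟩
    intro h
    exact hbc (add_right_cancel h)
  have h2 := card_le_card h1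
  have h3 : (univ : Finset (ZMod p × ZMod p)).card = p * p := by
    rw [card_univ, Fintype.card_prod, ZMod.card]
  have hi : ∀ f : ZMod p → ZMod p × ZMod p, ((univ : Finset (ZMod p)).image f).card ≤ p := by
    intro f
    refine card_image_le.trans ?_
    rw [card_univ, ZMod.card]
  rw [h3] at h2
  have u1 := (card_union_le (GoodSet b c) _).trans' h2
  refine u1.trans ?_
  have := hi (fun x => (x, b + x - c))
  have := hi (fun x => (x, b - c))
  have := hi (fun y => ((0 : ZMod p), y))
  have := hi (fun x => (x, x))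
  have := hi (fun x => (x, (0 : ZMod p)))
  have v1 := card_union_le ((univ : Finset (ZMod p)).image (fun x => (x, b + x - c)))
      ((univ : Finset (ZMod p)).image (fun x => (x, b - c)) ∪
      ((univ : Finset (ZMod p)).image (fun y => ((0 : ZMod p), y)) ∪
      ((univ : Finset (ZMod p)).image (fun x => (x, x)) ∪
      ((univ : Finset (ZMod p)).image (fun x => (x, (0 : ZMod p)))))))
  have v2 := card_union_le ((univ : Finset (ZMod p)).image (fun x => (x, b - c)))
      ((univ : Finset (ZMod p)).image (fun y => ((0 : ZMod p), y)) ∪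
      ((univ : Finset (ZMod p)).image (fun x => (x, x)) ∪
      ((univ : Finset (ZMod p)).image (fun x => (x, (0 : ZMod p))))))
  have v3 := card_union_le ((univ : Finset (ZMod p)).image (fun y => ((0 : ZMod p), y)))
      ((univ : Finset (ZMod p)).image (fun x => (x, x)) ∪
      ((univ : Finset (ZMod p)).image (fun x => (x, (0 : ZMod p)))))
  have v4 := card_union_le ((univ : Finset (ZMod p)).image (fun x => (x, x)))
      ((univ : Finset (ZMod p)).image (fun x => (x, (0 : ZMod p))))
  omega

/-- The parameter set for triples. -/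
noncomputable def GS (q n p : ℕ) [NeZero p] (b c : ZMod p) : Finset (Om q n p) :=
  (Fintype.piFinset (fun i : Fin n => Fintype.piFinset (fun _ : Fin 4 => T q i.val))) ×ˢ
    (GoodSet b c ×ˢ (univ : Finset (ZMod p × ZMod p × ZMod p × ZMod p × ZMod p)))

theorem card_Slot (q n : ℕ) [NeZero q] :
    Fintype.card (Slot q n) = ∏ i : Fin n, (q ^ (i.val + 1)) ^ 4 := by
  rw [Fintype.card_pi]
  apply prod_congr rfl
  intro i _
  rw [Fintype.card_fun, ZMod.card, Fintype.card_fin]

theorem card_Om (q n p : ℕ) [NeZero q] [NeZero p] :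
    Fintype.card (Om q n p) = Fintype.card (Slot q n) * ((p * p) * p ^ 5) := by
  simp only [Fintype.card_prod, ZMod.card]
  ring

theorem card_GS (q n p : ℕ) [NeZero q] [NeZero p] (hq : 12 ≤ q) (b c : ZMod p) :
    ((GS q n p b c).card : ℝ) =
      (1 - 12 / (q : ℝ)) ^ (4 * n) * Fintype.card (Slot q n) *
        ((GoodSet b c).card * (p : ℝ) ^ 5) := by
  have hq0 : (q : ℝ) ≠ 0 := by
    have : (0 : ℝ) < q := by exact_mod_cast (by omega : 0 < q)
    exact this.ne'
  rw [GS, card_product, card_product, Fintype.card_piFinset, card_Slot]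
  have h1 : ∀ i : Fin n, ((Fintype.piFinset (fun _ : Fin 4 => T q i.val)).card : ℝ) =
      (1 - 12 / (q : ℝ)) ^ 4 * ((q : ℝ) ^ (i.val + 1)) ^ 4 := by
    intro i
    rw [Fintype.card_piFinset, prod_const, card_univ, Fintype.card_fin, card_T q i.val hq]
    push_cast [Nat.cast_sub hq]
    rw [← mul_pow]
    congr 1
    field_simp
    ring
  push_cast
  rw [prod_congr rfl (fun i _ => h1 i), prod_mul_distrib, prod_const, card_univ, card_univ,
    Fintype.card_fin, ← pow_mul]
  simp only [Fintype.card_prod, ZMod.card]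
  push_cast
  ring

theorem GS_lower (q n p : ℕ) [NeZero q] [NeZero p] (η : ℝ) (hη : 0 < η) (hη1 : η ≤ 1)
    (hq : 12 ≤ q) (hq2 : 96 * (n : ℝ) ≤ η * q) (hp : 10 ≤ η * p) {b c : ZMod p} (hbc : b ≠ c) :
    (1 - η) * Fintype.card (Om q n p) ≤ ((GS q n p b c).card : ℝ) := by
  rw [card_GS q n p hq, card_Om]
  have hq0 : (0 : ℝ) < q := by exact_mod_cast (by omega : 0 < q)
  have hp0 : (0 : ℝ) < p := by
    have := NeZero.pos p
    exact_mod_cast this
  have h1 : 1 - η / 2 ≤ (1 - 12 / (q : ℝ)) ^ (4 * n) := by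
    have h2 : (-1 : ℝ) ≤ -(12 / (q : ℝ)) := by
      rw [neg_le_neg_iff, div_le_one hq0]
      exact_mod_cast hq
    have h3 := one_add_mul_le_pow (by linarith : (-2 : ℝ) ≤ -(12 / (q : ℝ))) (4 * n)
    rw [← sub_eq_add_neg] at h3
    refine le_trans ?_ h3
    push_cast
    have h4 : (4 * (n : ℝ)) * (12 / (q : ℝ)) ≤ η / 2 := by
      rw [mul_div_assoc', div_le_iff₀ hq0]
      linarith
    linarith
  have h5 : (1 - η / 2) * ((p : ℝ) * p) ≤ ((GoodSet b c).card : ℝ) := by
    have h6 := card_GoodSet hbc
    have h7 : (p : ℝ) * p ≤ (GoodSet b c).card + 5 * p := by exact_mod_cast h6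
    nlinarith
  have hS : (0 : ℝ) ≤ Fintype.card (Slot q n) := Nat.cast_nonneg _
  have hp5 : (0 : ℝ) ≤ (p : ℝ) ^ 5 := by positivity
  push_cast
  calc (1 - η) * ((Fintype.card (Slot q n) : ℝ) * ((p * p) * (p : ℝ) ^ 5))
      ≤ ((1 - η / 2) * (1 - η / 2)) * ((Fintype.card (Slot q n) : ℝ) *
          ((p * p) * (p : ℝ) ^ 5)) := by
        apply mul_le_mul_of_nonneg_right
        · nlinarith
        · positivity
    _ = ((1 - η / 2) * Fintype.card (Slot q n)) * (((1 - η / 2) * (p * p)) * (p : ℝ) ^ 5) := by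
        ring
    _ ≤ ((1 - 12 / (q : ℝ)) ^ (4 * n) * Fintype.card (Slot q n)) *
          ((GoodSet b c).card * (p : ℝ) ^ 5) := by
        apply mul_le_mul
        · exact mul_le_mul_of_nonneg_right h1 hS
        · exact mul_le_mul_of_nonneg_right h5 hp5
        · apply mul_nonneg _ hp5
          apply mul_nonneg
          · linarith
          · positivity
        · apply mul_nonneg _ hS
          exact le_trans (by linarith) h1

/-- A big box. -/
def bigBox (q n p : ℕ) : Finset Vec := Fintype.piFinset (fun _ : Fin 4 => range (2 * (p * q ^ n)))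

theorem mem_bigBox {q n p : ℕ} (hq : 0 < q) {a : Fin n} {X : Vec}
    (h : ∀ i, X i < 2 * (p * q ^ (a.val + 1))) : X ∈ bigBox q n p := by
  rw [bigBox, Fintype.mem_piFinset]
  intro i
  rw [mem_range]
  refine (h i).trans_le ?_
  have := Nat.pow_le_pow_right hq (Nat.succ_le_of_lt a.isLt)
  exact Nat.mul_le_mul_left _ (Nat.mul_le_mul_left _ this)

open scoped Classical in
/-- The finite set of pairs of type `(a, b)`. -/
noncomputable def PS {q n p : ℕ} (e : Slot q n → ZMod p) (a b : Fin n) : Finset (Vec × Vec) :=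
  (bigBox q n p ×ˢ bigBox q n p).filter (fun x => InP e a b x.1 x.2)

open scoped Classical in
/-- The finite set of triples of type `(a, b, c)`. -/
noncomputable def VS {q n p : ℕ} (e : Slot q n → ZMod p) (a b c : Fin n) :
    Finset (Vec × Vec × Vec) :=
  (bigBox q n p ×ˢ (bigBox q n p ×ˢ bigBox q n p)).filter (fun x => InV e a b c x.1 x.2.1 x.2.2)

variable {q n p : ℕ} {e : Slot q n → ZMod p} {a b c : Fin n}

theorem mem_PS (hq : 0 < q) {x : Vec × Vec} : x ∈ PS e a b ↔ InP e a b x.1 x.2 := by
  classical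
  rw [PS, mem_filter, mem_product]
  constructor
  · exact fun h => h.2
  · intro h
    exact ⟨⟨mem_bigBox hq (fun i => (h.1 i).2), mem_bigBox hq (fun i => (h.2.1 i).2)⟩, h⟩

theorem mem_VS (hq : 0 < q) (hp : 0 < p) {x : Vec × Vec × Vec} :
    x ∈ VS e a b c ↔ InV e a b c x.1 x.2.1 x.2.2 := by
  classical
  rw [VS, mem_filter, mem_product, mem_product]
  constructor
  · exact fun h => h.2
  · intro h
    have hA := h.alpha
    have hB := h.beta hp
    exact ⟨⟨mem_bigBox hq (fun i => (hA.1 i).2), mem_bigBox hq (fun i => (hA.2.1 i).2),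
      mem_bigBox hq (fun i => (hB.2.1 i).2)⟩, h⟩

theorem card_PS_le [NeZero q] [NeZero p] (hab : a ≠ b) :
    (PS e a b).card ≤ Fintype.card (Om q n p) := by
  classical
  have hq : 0 < q := NeZero.pos q
  have hp : 0 < p := NeZero.pos p
  have h : ∀ x ∈ PS e a b, ∃ ω : Om q n p, Rel e a b x.1 x.2 ω := by
    intro x hx
    exact Rel.total hab ((mem_PS hq).1 hx)
  choose! f hf using h
  rw [← card_univ]
  apply card_le_card_of_injOn f (fun _ _ => by simp)
  intro x hx y hy hxy
  rw [mem_coe] at hx hy
  have h1 := hf x hx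
  have h2 := hf y hy
  rw [hxy] at h1
  obtain ⟨h3, h4⟩ := Rel.inj hp ((mem_PS hq).1 hx) ((mem_PS hq).1 hy) h1 h2
  exact Prod.ext h3 h4

theorem card_GS_le [NeZero q] [Fact p.Prime] [NeZero p] (hq : 12 ≤ q) (he : Injective e)
    (hab : a < b) (hbc : b < c) :
    (GS q n p (b.val : ZMod p) (c.val : ZMod p)).card ≤ (VS e a b c).card := by
  classical
  have hq0 : 0 < q := NeZero.pos q
  have hp : 0 < p := NeZero.pos p
  have h : ∀ ω ∈ GS q n p (b.val : ZMod p) (c.val : ZMod p), ∃ x : Vec × Vec × Vec,
      InV e a b c x.1 x.2.1 x.2.2 ∧ Rel e a b x.1 x.2.1 ω := by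
    intro ω hω
    rw [GS, mem_product, mem_product, Fintype.mem_piFinset] at hω
    obtain ⟨X, Y, Z, h1, h2⟩ := Rel.lift (e := e) hq hab hbc ω
      (fun i j => Fintype.mem_piFinset.1 (hω.1 i) j)
      (by
        have := hω.2.1
        rw [GoodSet, mem_filter] at this
        exact this.2)
    exact ⟨(X, Y, Z), h1, h2⟩
  choose! f hf using h
  apply card_le_card_of_injOn f (fun ω hω => by
    rw [mem_coe, mem_VS hq0 hp]
    exact (hf ω hω).1)
  intro x hx y hy hxy
  rw [mem_coe] at hx hy
  have h1 := (hf x hx).2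
  have h2 := (hf y hy).2
  rw [hxy] at h1
  exact Rel.fun he h1 h2

end Pool.Agent.Helper39.Triples
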