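import Pool.Agent.Helper39.Triples4

set_option autoImplicit false

namespace Pool.Agent.Helper39.Triples

open Finset Function

theorem inter4 {α : Type*} [DecidableEq α] {A B C D S : Finset α} (hA : A ⊆ S) (hB : B ⊆ S)
    (hC : C ⊆ S) (hD : D ⊆ S) :
    A.card + B.card + C.card + D.card ≤ (A ∩ B ∩ C ∩ D).card + 3 * S.card := by
  have h1 := card_union_add_card_inter A B
  have h2 := card_union_add_card_inter (A ∩ B) C
  have h3 := card_union_add_card_inter (A ∩ B ∩ C) D
  have h4 := card_le_card (union_subset hA hB)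
  have h5 := card_le_card (union_subset (inter_subset_left.trans hA : A ∩ B ⊆ S) hC)
  have h6 := card_le_card (union_subset
    ((inter_subset_left.trans inter_subset_left).trans hA : A ∩ B ∩ C ⊆ S) hD)
  omega

section maps

variable {M : Type*} [Add M] [DecidableEq M]

/-- The four images. -/
def fA (V : Finset (M × M × M)) : Finset (M × M) := V.image (fun x => (x.1, x.2.1))
/-- The four images. -/
def fB (V : Finset (M × M × M)) : Finset (M × M) := V.image (fun x => (x.2.1, x.2.2))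
/-- The four images. -/
def fC (V : Finset (M × M × M)) : Finset (M × M) := V.image (fun x => (x.1 + x.2.1, x.2.2))
/-- The four images. -/
def fD (V : Finset (M × M × M)) : Finset (M × M) := V.image (fun x => (x.1, x.2.1 + x.2.2))

/-- The intersection. -/
def fI (V : Finset (M × M × M)) : Finset (M × M) := fA V ∩ fB V ∩ fC V ∩ fD V

end maps

variable {q n p : ℕ} {e : Slot q n → ZMod p}

/-- The number `m` as an index. -/
def ix (n : ℕ) [NeZero n] (m : ℕ) : Fin n := Fin.ofNat n m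

theorem ix_val (n : ℕ) [NeZero n] {m : ℕ} (h : m < n) : (ix n m).val = m := by
  simp [ix, Nat.mod_eq_of_lt h]

/-- The triples of type `(j, t)`. -/
noncomputable def W [NeZero n] (e : Slot q n → ZMod p) (j t : ℕ) : Finset (Vec × Vec × Vec) :=
  VS e (ix n j) (ix n (j + 2 ^ t)) (ix n (j + 2 * 2 ^ t))

/-- The pairs of type `(j, t)`. -/
noncomputable def S [NeZero n] (e : Slot q n → ZMod p) (j t : ℕ) : Finset (Vec × Vec) :=
  PS e (ix n j) (ix n (j + 2 ^ t))

theorem S_disjoint [NeZero n] [NeZero q] (hq2 : 2 ≤ q) {j t j' t' : ℕ}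
    (h1 : j + 2 ^ t < n) (h2 : j' + 2 ^ t' < n) (hne : (j, t) ≠ (j', t')) :
    Disjoint (S e j t) (S e j' t') := by
  have hq : 0 < q := NeZero.pos q
  have key : ∀ {u v m : ℕ}, p * q ^ (u + 1) ≤ m → m < 2 * (p * q ^ (u + 1)) →
      p * q ^ (v + 1) ≤ m → m < 2 * (p * q ^ (v + 1)) → u < v → False := by
    intro u v m a1 a2 a3 a4 huv
    have : q ^ (u + 1) * q ≤ q ^ (v + 1) := by
      rw [← pow_succ]
      exact Nat.pow_le_pow_right hq (by omega)
    have h3 : 2 * q ^ (u + 1) ≤ q ^ (v + 1) := by nlinarith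
    have h4 := Nat.mul_le_mul_left p h3
    have e1 : p * (2 * q ^ (u + 1)) = 2 * (p * q ^ (u + 1)) := by ring
    omega
  rw [disjoint_left]
  intro x hx hx'
  rw [S, mem_PS hq] at hx hx'
  have hx1 := hx.1 0
  have hx2 := hx.2.1 0
  have hx1' := hx'.1 0
  have hx2' := hx'.2.1 0
  have t1 : 0 < 2 ^ t := by positivity
  have t2 : 0 < 2 ^ t' := by positivity
  rw [ix_val n (by omega)] at hx1
  rw [ix_val n (by omega)] at hx1'
  rw [ix_val n h1] at hx2
  rw [ix_val n h2] at hx2'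
  have hj : j = j' := by
    rcases lt_trichotomy j j' with h | h | h
    · exact (key hx1.1 hx1.2 hx1'.1 hx1'.2 h).elim
    · exact h
    · exact (key hx1'.1 hx1'.2 hx1.1 hx1.2 h).elim
  have ht : j + 2 ^ t = j' + 2 ^ t' := by
    rcases lt_trichotomy (j + 2 ^ t) (j' + 2 ^ t') with h | h | h
    · exact (key hx2.1 hx2.2 hx2'.1 hx2'.2 h).elim
    · exact h
    · exact (key hx2'.1 hx2'.2 hx2.1 hx2.2 h).elim
  subst hj
  apply hne
  have : (2 : ℕ) ^ t = 2 ^ t' := by omega
  rw [Nat.pow_right_injective (le_refl 2) this]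

section pieces

variable [NeZero n] [NeZero q] [NeZero p] [Fact p.Prime]

theorem ix_lt {u v : ℕ} (h : u < v) (hv : v < n) : ix n u < ix n v := by
  rw [Fin.lt_def, ix_val n (h.trans hv), ix_val n hv]
  exact h

theorem W_A (he : Injective e) {j t : ℕ} (h : j + 2 * 2 ^ t < n) :
    fA (W e j t) ⊆ S e j t ∧ (fA (W e j t)).card = (W e j t).card := by
  have hq : 0 < q := NeZero.pos q
  have hp : 0 < p := NeZero.pos p
  have ht : 0 < 2 ^ t := by positivity
  have h1 : ix n j < ix n (j + 2 ^ t) := ix_lt (by omega) (by omega)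
  have h2 : ix n (j + 2 ^ t) < ix n (j + 2 * 2 ^ t) := ix_lt (by omega) h
  constructor
  · intro y hy
    rw [fA, mem_image] at hy
    obtain ⟨x, hx, rfl⟩ := hy
    rw [W, mem_VS hq hp] at hx
    rw [S, mem_PS hq]
    exact hx.alpha
  · rw [fA, card_image_of_injOn]
    intro x hx y hy hxy
    rw [mem_coe, W, mem_VS hq hp] at hx hy
    simp only [Prod.mk.injEq] at hxy
    obtain ⟨x1, x2, x3⟩ := x
    obtain ⟨y1, y2, y3⟩ := y
    simp only at hx hy hxy
    obtain ⟨rfl, rfl⟩ := hxy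
    have := inj_alpha he (h1.trans h2).ne h2.ne hx hy
    rw [this]

theorem W_B (he : Injective e) {j t : ℕ} (h : j + 2 * 2 ^ t < n) :
    fB (W e j t) ⊆ S e (j + 2 ^ t) t ∧ (fB (W e j t)).card = (W e j t).card := by
  have hq : 0 < q := NeZero.pos q
  have hp : 0 < p := NeZero.pos p
  have ht : 0 < 2 ^ t := by positivity
  have h1 : ix n j < ix n (j + 2 ^ t) := ix_lt (by omega) (by omega)
  have h2 : ix n (j + 2 ^ t) < ix n (j + 2 * 2 ^ t) := ix_lt (by omega) h
  constructor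
  · intro y hy
    rw [fB, mem_image] at hy
    obtain ⟨x, hx, rfl⟩ := hy
    rw [W, mem_VS hq hp] at hx
    rw [S, mem_PS hq, show j + 2 ^ t + 2 ^ t = j + 2 * 2 ^ t by ring]
    exact hx.beta hp
  · rw [fB, card_image_of_injOn]
    intro x hx y hy hxy
    rw [mem_coe, W, mem_VS hq hp] at hx hy
    simp only [Prod.mk.injEq] at hxy
    obtain ⟨x1, x2, x3⟩ := x
    obtain ⟨y1, y2, y3⟩ := y
    simp only at hx hy hxy
    obtain ⟨rfl, rfl⟩ := hxy
    have := inj_beta he h1.ne (h1.trans h2).ne hx hy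
    rw [this]

theorem W_C (hp2 : p ≠ 2) (he : Injective e) {j t : ℕ} (h : j + 2 * 2 ^ t < n) :
    fC (W e j t) ⊆ S e (j + 2 ^ t) t ∧ (fC (W e j t)).card = (W e j t).card := by
  have hq : 0 < q := NeZero.pos q
  have hp : 0 < p := NeZero.pos p
  have ht : 0 < 2 ^ t := by positivity
  have h1 : ix n j < ix n (j + 2 ^ t) := ix_lt (by omega) (by omega)
  have h2 : ix n (j + 2 ^ t) < ix n (j + 2 * 2 ^ t) := ix_lt (by omega) h
  constructor
  · intro y hy
    rw [fC, mem_image] at hy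
    obtain ⟨x, hx, rfl⟩ := hy
    rw [W, mem_VS hq hp] at hx
    rw [S, mem_PS hq, show j + 2 ^ t + 2 ^ t = j + 2 * 2 ^ t by ring]
    exact hx.gamma hp
  · rw [fC, card_image_of_injOn]
    intro x hx y hy hxy
    rw [mem_coe, W, mem_VS hq hp] at hx hy
    simp only [Prod.mk.injEq] at hxy
    obtain ⟨x1, x2, x3⟩ := x
    obtain ⟨y1, y2, y3⟩ := y
    simp only at hx hy hxy
    obtain ⟨hw, rfl⟩ := hxy
    obtain ⟨rfl, rfl⟩ := inj_gamma hp2 he h1.ne (h1.trans h2).ne hx hy hw
    rfl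

theorem W_D (hp2 : p ≠ 2) (he : Injective e) {j t : ℕ} (h : j + 2 * 2 ^ t < n) :
    fD (W e j t) ⊆ S e j (t + 1) ∧ (fD (W e j t)).card = (W e j t).card := by
  have hq : 0 < q := NeZero.pos q
  have hp : 0 < p := NeZero.pos p
  have ht : 0 < 2 ^ t := by positivity
  have h1 : ix n j < ix n (j + 2 ^ t) := ix_lt (by omega) (by omega)
  have h2 : ix n (j + 2 ^ t) < ix n (j + 2 * 2 ^ t) := ix_lt (by omega) h
  constructor
  · intro y hy
    rw [fD, mem_image] at hy
    obtain ⟨x, hx, rfl⟩ := hy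
    rw [W, mem_VS hq hp] at hx
    rw [S, mem_PS hq, show j + 2 ^ (t + 1) = j + 2 * 2 ^ t by ring]
    exact hx.delta hp
  · rw [fD, card_image_of_injOn]
    intro x hx y hy hxy
    rw [mem_coe, W, mem_VS hq hp] at hx hy
    simp only [Prod.mk.injEq] at hxy
    obtain ⟨x1, x2, x3⟩ := x
    obtain ⟨y1, y2, y3⟩ := y
    simp only at hx hy hxy
    obtain ⟨rfl, hw⟩ := hxy
    obtain ⟨rfl, rfl⟩ := inj_delta hp2 he hq h1.ne h2.ne hx hy hw
    rfl

omit [Fact p.Prime] in
theorem card_S_le {j t : ℕ} (h : j + 2 ^ t < n) :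
    (S e j t).card ≤ Fintype.card (Om q n p) := by
  have ht : 0 < 2 ^ t := by positivity
  exact card_PS_le (ix_lt (by omega) h).ne

theorem card_W_ge (hq : 12 ≤ q) (he : Injective e) (hpn : n ≤ p) (η : ℝ) (hη : 0 < η)
    (hη1 : η ≤ 1) (hq2 : 96 * (n : ℝ) ≤ η * q) (hpη : 10 ≤ η * p)
    {j t : ℕ} (h : j + 2 * 2 ^ t < n) :
    (1 - η) * Fintype.card (Om q n p) ≤ ((W e j t).card : ℝ) := by
  have ht : 0 < 2 ^ t := by positivity
  have h1 : ix n j < ix n (j + 2 ^ t) := ix_lt (by omega) (by omega)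
  have h2 : ix n (j + 2 ^ t) < ix n (j + 2 * 2 ^ t) := ix_lt (by omega) h
  have hbc : ((ix n (j + 2 ^ t)).val : ZMod p) ≠ ((ix n (j + 2 * 2 ^ t)).val : ZMod p) := by
    intro heq
    rw [ZMod.natCast_eq_natCast_iff', Nat.mod_eq_of_lt ((ix n _).isLt.trans_le hpn),
      Nat.mod_eq_of_lt ((ix n _).isLt.trans_le hpn)] at heq
    exact h2.ne (Fin.ext heq)
  refine (GS_lower q n p η hη hη1 hq hq2 hpη hbc).trans ?_
  exact_mod_cast card_GS_le hq he h1 h2

end pieces

end Pool.Agent.Helper39.Triples
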