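import Pool.Agent.Helper39.Triples5

set_option autoImplicit false

namespace Pool.Agent.Helper39.Triples

open Finset Function

theorem fA_mono {M : Type*} [DecidableEq M] {V V' : Finset (M × M × M)} (h : V ⊆ V') :
    fA V ⊆ fA V' := image_subset_image h

theorem fB_mono {M : Type*} [DecidableEq M] {V V' : Finset (M × M × M)} (h : V ⊆ V') :
    fB V ⊆ fB V' := image_subset_image h

theorem fC_mono {M : Type*} [Add M] [DecidableEq M] {V V' : Finset (M × M × M)} (h : V ⊆ V') :
    fC V ⊆ fC V' := image_subset_image h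

theorem fD_mono {M : Type*} [Add M] [DecidableEq M] {V V' : Finset (M × M × M)} (h : V ⊆ V') :
    fD V ⊆ fD V' := image_subset_image h

theorem main_vec (ε : ℝ) (hε : 0 < ε) : ∃ V : Finset (Vec × Vec × Vec), V.Nonempty ∧
    (∀ x ∈ V, 0 < x.1 0 ∧ 0 < x.2.1 0 ∧ 0 < x.2.2 0) ∧
    (1 - ε) * (V.card : ℝ) ≤ ((fI V).card : ℝ) := by
  classical
  set ε' := min ε 1 with hε'
  have hε'0 : 0 < ε' := lt_min hε one_pos
  have hε'1 : ε' ≤ 1 := min_le_right _ _
  have hε'ε : ε' ≤ ε := min_le_left _ _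
  set δ := ε' / 4 with hδ
  have hδ0 : 0 < δ := by positivity
  have hδ1 : δ ≤ 1 / 4 := by rw [hδ]; linarith
  set η := δ / 4 with hη
  have hη0 : 0 < η := by positivity
  have hη1 : η ≤ 1 := by rw [hη]; linarith
  obtain ⟨T, hT⟩ := exists_nat_ge (1 / δ)
  have hT1 : 1 ≤ δ * T := by rwa [div_le_iff₀' hδ0] at hT
  obtain ⟨J, hJ⟩ := exists_nat_ge ((2 : ℝ) ^ T / δ)
  have hJ1 : (2 : ℝ) ^ T ≤ δ * J := by rwa [div_le_iff₀' hδ0] at hJ
  set n := J + 2 * 2 ^ T with hn
  have h2T : 0 < 2 ^ T := by positivity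
  have : NeZero n := ⟨by omega⟩
  obtain ⟨q0, hq0⟩ := exists_nat_ge (96 * (n : ℝ) / η)
  set q := max q0 12 with hqdef
  have hq12 : 12 ≤ q := le_max_right _ _
  have : NeZero q := ⟨by omega⟩
  have hq2 : 96 * (n : ℝ) ≤ η * q := by
    rw [div_le_iff₀' hη0] at hq0
    refine hq0.trans ?_
    apply mul_le_mul_of_nonneg_left _ hη0.le
    exact_mod_cast le_max_left q0 12
  obtain ⟨p0, hp0⟩ := exists_nat_ge (10 / η)
  obtain ⟨p, hpge, hpp⟩ := Nat.exists_infinite_primes
    (max (max p0 3) (max n (Fintype.card (Slot q n))))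
  have : Fact p.Prime := ⟨hpp⟩
  have : NeZero p := ⟨hpp.ne_zero⟩
  have hp1 : p0 ≤ p := (le_max_left _ _).trans ((le_max_left _ _).trans hpge)
  have hp2 : 3 ≤ p := (le_max_right _ _).trans ((le_max_left _ _).trans hpge)
  have hp3 : n ≤ p := (le_max_left _ _).trans ((le_max_right _ _).trans hpge)
  have hp4 : Fintype.card (Slot q n) ≤ p := (le_max_right _ _).trans ((le_max_right _ _).trans hpge)
  have hpη : 10 ≤ η * p := by
    rw [div_le_iff₀' hη0] at hp0
    refine hp0.trans ?_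
    apply mul_le_mul_of_nonneg_left _ hη0.le
    exact_mod_cast hp1
  have hp2' : p ≠ 2 := by omega
  obtain ⟨e⟩ : Nonempty (Slot q n ↪ ZMod p) := by
    apply Function.Embedding.nonempty_of_card_le
    rw [ZMod.card]
    exact hp4
  have he : Injective (e : Slot q n → ZMod p) := e.injective
  have hq' : 0 < q := NeZero.pos q
  have hp' : 0 < p := NeZero.pos p
  set N := Fintype.card (Om q n p) with hN
  have hNpos : 0 < N := Fintype.card_pos
  have hNpos' : (0 : ℝ) < N := by exact_mod_cast hNpos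
  -- types
  have hidx : ∀ j t, j < J → t < T → j + 2 * 2 ^ t < n := by
    intro j t hj ht
    have : 2 ^ t ≤ 2 ^ T := Nat.pow_le_pow_right (by norm_num) ht.le
    omega
  set V := (range J ×ˢ range T).biUnion (fun jt => W (e : Slot q n → ZMod p) jt.1 jt.2) with hV
  have hWV : ∀ j t, j < J → t < T → W (e : Slot q n → ZMod p) j t ⊆ V := by
    intro j t hj ht
    rw [hV]
    intro x hx
    rw [mem_biUnion]
    exact ⟨(j, t), by simp [hj, ht], hx⟩
  have hWge : ∀ j t, j < J → t < T →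
      (1 - η) * N ≤ ((W (e : Slot q n → ZMod p) j t).card : ℝ) := by
    intro j t hj ht
    exact card_W_ge hq12 he hp3 η hη0 hη1 hq2 hpη (hidx j t hj ht)
  have hSle : ∀ j t, j < J → t < T → (S (e : Slot q n → ZMod p) j t).card ≤ N := by
    intro j t hj ht
    have := hidx j t hj ht
    have t1 : 0 < 2 ^ t := by positivity
    exact card_S_le (by omega)
  have hWle : ∀ j t, j < J → t < T → (W (e : Slot q n → ZMod p) j t).card ≤ N := by
    intro j t hj ht
    rw [← (W_A he (hidx j t hj ht)).2]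
    exact (card_le_card (W_A he (hidx j t hj ht)).1).trans (hSle j t hj ht)
  have hVle : V.card ≤ J * T * N := by
    rw [hV]
    refine card_biUnion_le.trans ?_
    refine (sum_le_card_nsmul _ _ N ?_).trans ?_
    · rintro ⟨j, t⟩ hjt
      rw [mem_product, mem_range, mem_range] at hjt
      exact hWle j t hjt.1 hjt.2
    · rw [card_product, card_range, card_range, smul_eq_mul]
  have hJT : 0 < J ∧ 0 < T := by
    constructor
    · rcases Nat.eq_zero_or_pos J with h | h
      · rw [h] at hJ1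
        have : (0 : ℝ) < 2 ^ T := by positivity
        simp at hJ1
        linarith
      · exact h
    · rcases Nat.eq_zero_or_pos T with h | h
      · rw [h] at hT1
        simp at hT1
        linarith
      · exact h
  refine ⟨V, ?_, ?_, ?_⟩
  · have h1 := hWge 0 0 hJT.1 hJT.2
    have h2 : 0 < (W (e : Slot q n → ZMod p) 0 0).card := by
      have h3 : (0 : ℝ) < (1 - η) * N := by
        apply mul_pos _ hNpos'
        rw [hη]; linarith
      exact_mod_cast h3.trans_le h1
    obtain ⟨x, hx⟩ := card_pos.1 h2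
    exact ⟨x, hWV 0 0 hJT.1 hJT.2 hx⟩
  · intro x hx
    rw [hV, mem_biUnion] at hx
    obtain ⟨⟨j, t⟩, -, hx⟩ := hx
    simp only at hx
    rw [W, mem_VS hq' hp'] at hx
    have hA := hx.alpha
    have hB := hx.beta hp'
    have pos : ∀ u : ℕ, 0 < p * q ^ (u + 1) := fun u => by positivity
    exact ⟨(pos _).trans_le (hA.1 0).1, (pos _).trans_le (hA.2.1 0).1,
      (pos _).trans_le (hB.2.1 0).1⟩
  · -- interior types
    have hpiece : ∀ jt ∈ (Ico (2 ^ T) J ×ˢ Ico 1 T : Finset (ℕ × ℕ)),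
        (1 - δ) * (N : ℝ) ≤ ((fI V ∩ S (e : Slot q n → ZMod p) jt.1 jt.2).card : ℝ) := by
      rintro ⟨j, t⟩ hjt
      rw [mem_product, mem_Ico, mem_Ico] at hjt
      obtain ⟨⟨hj1, hj2⟩, ht1, ht2⟩ := hjt
      simp only at hj1 hj2 ht1 ht2 ⊢
      have h2t : 2 ^ t ≤ 2 ^ T := Nat.pow_le_pow_right (by norm_num) ht2.le
      have t1 : 0 < 2 ^ t := by positivity
      have hj' : j - 2 ^ t < J := by omega
      have hjj : j - 2 ^ t + 2 ^ t = j := by omega
      have htt : t - 1 + 1 = t := by omega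
      have ht' : t - 1 < T := by omega
      obtain ⟨a1, a2⟩ := W_A he (hidx j t hj2 ht2)
      obtain ⟨b1, b2⟩ := W_B he (hidx (j - 2 ^ t) t hj' ht2)
      obtain ⟨c1, c2⟩ := W_C hp2' he (hidx (j - 2 ^ t) t hj' ht2)
      obtain ⟨d1, d2⟩ := W_D hp2' he (hidx j (t - 1) hj2 ht')
      rw [hjj] at b1 c1
      rw [htt] at d1
      have h4 := inter4 a1 b1 c1 d1
      rw [a2, b2, c2, d2] at h4
      have w1 := hWge j t hj2 ht2
      have w2 := hWge (j - 2 ^ t) t hj' ht2
      have w3 := hWge j (t - 1) hj2 ht'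
      have s1 : ((S (e : Slot q n → ZMod p) j t).card : ℝ) ≤ N := by
        exact_mod_cast hSle j t hj2 ht2
      have h5 : fA (W (e : Slot q n → ZMod p) j t) ∩ fB (W (e : Slot q n → ZMod p) (j - 2 ^ t) t) ∩
          fC (W (e : Slot q n → ZMod p) (j - 2 ^ t) t) ∩
          fD (W (e : Slot q n → ZMod p) j (t - 1)) ⊆
          fI V ∩ S (e : Slot q n → ZMod p) j t := by
        intro x hx
        rw [mem_inter, mem_inter, mem_inter] at hx
        obtain ⟨⟨⟨x1, x2⟩, x3⟩, x4⟩ := hx
        rw [mem_inter, fI, mem_inter, mem_inter, mem_inter]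
        exact ⟨⟨⟨⟨fA_mono (hWV j t hj2 ht2) x1, fB_mono (hWV _ t hj' ht2) x2⟩,
          fC_mono (hWV _ t hj' ht2) x3⟩, fD_mono (hWV j _ hj2 ht') x4⟩, a1 x1⟩
      have h6 := card_le_card h5
      have h7 : ((W (e : Slot q n → ZMod p) j t).card : ℝ) +
          (W (e : Slot q n → ZMod p) (j - 2 ^ t) t).card +
          (W (e : Slot q n → ZMod p) (j - 2 ^ t) t).card +
          (W (e : Slot q n → ZMod p) j (t - 1)).card ≤
          ((fI V ∩ S (e : Slot q n → ZMod p) j t).card : ℝ) +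
          3 * (S (e : Slot q n → ZMod p) j t).card := by
        exact_mod_cast h4.trans (by omega)
      have h8 : (1 - δ) * (N : ℝ) = 4 * ((1 - η) * N) - 3 * N := by rw [hη]; ring
      rw [h8]
      linarith
    have hsum : (((Ico (2 ^ T) J ×ˢ Ico 1 T : Finset (ℕ × ℕ)).biUnion
        (fun jt => fI V ∩ S (e : Slot q n → ZMod p) jt.1 jt.2)).card : ℝ) ≤
        ((fI V).card : ℝ) := by
      exact_mod_cast card_le_card (biUnion_subset.2 (fun _ _ => inter_subset_left))
    rw [card_biUnion] at hsum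
    · refine le_trans ?_ hsum
      rw [Nat.cast_sum]
      have h9 := card_nsmul_le_sum (Ico (2 ^ T) J ×ˢ Ico 1 T : Finset (ℕ × ℕ))
        (fun jt => ((fI V ∩ S (e : Slot q n → ZMod p) jt.1 jt.2).card : ℝ)) _ hpiece
      refine le_trans ?_ h9
      rw [card_product, Nat.card_Ico, Nat.card_Ico, nsmul_eq_mul]
      have hJ2 : 2 ^ T ≤ J := by
        have : (2 : ℝ) ^ T ≤ J := by
          refine hJ1.trans ?_
          have : (0 : ℝ) ≤ J := Nat.cast_nonneg _
          nlinarith
        exact_mod_cast this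
      push_cast [Nat.cast_sub hJ2, Nat.cast_sub hJT.2]
      have hVle' : (V.card : ℝ) ≤ J * T * N := by exact_mod_cast hVle
      have hVn : (0 : ℝ) ≤ V.card := Nat.cast_nonneg _
      have hJn : (0 : ℝ) ≤ J := Nat.cast_nonneg _
      have hTn : (0 : ℝ) ≤ T := Nat.cast_nonneg _
      have i1 : (1 - δ) * (J : ℝ) ≤ J - 2 ^ T := by linarith
      have i2 : (1 - δ) * (T : ℝ) ≤ T - 1 := by linarith
      have i3 : ((1 - δ) * (J : ℝ)) * ((1 - δ) * (T : ℝ)) ≤ ((J : ℝ) - 2 ^ T) * ((T : ℝ) - 1) := by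
        apply mul_le_mul i1 i2
        · apply mul_nonneg _ hTn; linarith
        · refine le_trans ?_ i1
          apply mul_nonneg _ hJn; linarith
      calc (1 - ε) * (V.card : ℝ) ≤ (1 - ε') * (V.card : ℝ) := by
            apply mul_le_mul_of_nonneg_right _ hVn; linarith
        _ ≤ (1 - ε') * (J * T * N) := by
            apply mul_le_mul_of_nonneg_left hVle'; linarith
        _ ≤ (1 - δ) ^ 3 * (J * T * N) := by
            apply mul_le_mul_of_nonneg_right
            · have : ε' = 4 * δ := by rw [hδ]; ring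
              rw [this]
              nlinarith [mul_pos hδ0 hδ0, mul_pos (mul_pos hδ0 hδ0) hδ0]
            · positivity
        _ = (((1 - δ) * (J : ℝ)) * ((1 - δ) * (T : ℝ))) * ((1 - δ) * N) := by ring
        _ ≤ (((J : ℝ) - 2 ^ T) * ((T : ℝ) - 1)) * ((1 - δ) * N) := by
            apply mul_le_mul_of_nonneg_right i3
            apply mul_nonneg _ hNpos'.le
            linarith
    · rintro ⟨j, t⟩ hjt ⟨j', t'⟩ hjt' hne
      rw [mem_coe, mem_product, mem_Ico, mem_Ico] at hjt hjt'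
      have g1 := hidx j t hjt.1.2 hjt.2.2
      have g2 := hidx j' t' hjt'.1.2 hjt'.2.2
      have t1 : 0 < 2 ^ t := by positivity
      have t2 : 0 < 2 ^ t' := by positivity
      have := S_disjoint (e := (e : Slot q n → ZMod p)) (by omega : 2 ≤ q)
        (by omega : j + 2 ^ t < n) (by omega : j' + 2 ^ t' < n) hne
      exact this.mono inter_subset_right inter_subset_right

/-- The additive map to the natural numbers. -/
def phi (H : ℕ) (X : Vec) : ℕ := X 0 + H * (X 1 + H * (X 2 + H * X 3))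

theorem phi_add (H : ℕ) (X Y : Vec) : phi H (X + Y) = phi H X + phi H Y := by
  simp only [phi, Pi.add_apply]
  ring

theorem phi_inj {H : ℕ} {X Y : Vec} (hX : ∀ i, X i < H) (hY : ∀ i, Y i < H)
    (h : phi H X = phi H Y) : X = Y := by
  have key : ∀ {a b a' b' : ℕ}, a < H → a' < H → a + H * b = a' + H * b' → a = a' ∧ b = b' := by
    intro a b a' b' ha ha' hh
    have hH : 0 < H := by omega
    have h1 : (a + H * b) % H = (a' + H * b') % H := by rw [hh]
    rw [Nat.add_mul_mod_self_left, Nat.add_mul_mod_self_left, Nat.mod_eq_of_lt ha,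
      Nat.mod_eq_of_lt ha'] at h1
    refine ⟨h1, ?_⟩
    subst h1
    exact Nat.eq_of_mul_eq_mul_left hH (by omega)
  unfold phi at h
  obtain ⟨h0, h⟩ := key (hX 0) (hY 0) h
  obtain ⟨h1, h⟩ := key (hX 1) (hY 1) h
  obtain ⟨h2, h3⟩ := key (hX 2) (hY 2) h
  funext i
  fin_cases i <;> assumption

theorem main_nat (ε : ℝ) (hε : 0 < ε) : ∃ V : Finset (ℕ × ℕ × ℕ), V.Nonempty ∧
    (∀ x ∈ V, 0 < x.1 ∧ 0 < x.2.1 ∧ 0 < x.2.2) ∧
    (1 - ε) * (V.card : ℝ) ≤ ((fI V).card : ℝ) := by
  classical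
  rcases le_or_gt 1 ε with h1 | h1
  · refine ⟨{(1, 1, 1)}, singleton_nonempty _, ?_, ?_⟩
    · intro x hx
      rw [mem_singleton] at hx
      subst hx
      simp
    · rw [card_singleton]
      have : (0 : ℝ) ≤ ((fI {((1 : ℕ), (1 : ℕ), (1 : ℕ))}).card : ℝ) := Nat.cast_nonneg _
      push_cast
      linarith
  obtain ⟨V, hne, hpos, hV⟩ := main_vec ε hε
  -- a bound for all entries
  obtain ⟨H, hH⟩ : ∃ H : ℕ, ∀ x ∈ V, ∀ i, x.1 i < H ∧ x.2.1 i < H := by
    refine ⟨V.sup (fun x => (∑ i, (x.1 i + x.2.1 i)) + 1), ?_⟩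
    intro x hx i
    have h2 : (∑ i, (x.1 i + x.2.1 i)) + 1 ≤ V.sup (fun x => (∑ i, (x.1 i + x.2.1 i)) + 1) :=
      le_sup (f := fun x : Vec × Vec × Vec => (∑ i, (x.1 i + x.2.1 i)) + 1) hx
    have h3 : x.1 i + x.2.1 i ≤ ∑ i, (x.1 i + x.2.1 i) :=
      single_le_sum (f := fun i => x.1 i + x.2.1 i) (fun _ _ => Nat.zero_le _) (mem_univ i)
    omega
  refine ⟨V.image (fun x => (phi H x.1, phi H x.2.1, phi H x.2.2)), hne.image _, ?_, ?_⟩
  · intro y hy
    rw [mem_image] at hy
    obtain ⟨x, hx, rfl⟩ := hy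
    obtain ⟨p1, p2, p3⟩ := hpos x hx
    unfold phi
    exact ⟨by simp only; omega, by simp only; omega, by simp only; omega⟩
  · have hc1 : ((V.image (fun x => (phi H x.1, phi H x.2.1, phi H x.2.2))).card : ℝ) ≤ V.card := by
      exact_mod_cast card_image_le
    have hc2 : (fI V).card ≤
        (fI (V.image (fun x => (phi H x.1, phi H x.2.1, phi H x.2.2)))).card := by
      have hinj : Set.InjOn (fun y : Vec × Vec => (phi H y.1, phi H y.2)) (fI V) := by
        intro y hy z hz hyz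
        rw [mem_coe, fI, mem_inter, mem_inter, mem_inter] at hy hz
        have hy1 := hy.1.1.1
        have hz1 := hz.1.1.1
        rw [fA, mem_image] at hy1 hz1
        obtain ⟨x, hx, rfl⟩ := hy1
        obtain ⟨w, hw, rfl⟩ := hz1
        simp only [Prod.mk.injEq] at hyz ⊢
        exact ⟨phi_inj (fun i => (hH x hx i).1) (fun i => (hH w hw i).1) hyz.1,
          phi_inj (fun i => (hH x hx i).2) (fun i => (hH w hw i).2) hyz.2⟩
      rw [← card_image_of_injOn hinj]
      apply card_le_card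
      intro z hz
      rw [mem_image] at hz
      obtain ⟨y, hy, rfl⟩ := hz
      rw [fI, mem_inter, mem_inter, mem_inter] at hy ⊢
      obtain ⟨⟨⟨y1, y2⟩, y3⟩, y4⟩ := hy
      rw [fA, mem_image] at y1
      rw [fB, mem_image] at y2
      rw [fC, mem_image] at y3
      rw [fD, mem_image] at y4
      refine ⟨⟨⟨?_, ?_⟩, ?_⟩, ?_⟩
      · obtain ⟨x, hx, rfl⟩ := y1
        rw [fA, mem_image]
        exact ⟨_, mem_image_of_mem _ hx, rfl⟩
      · obtain ⟨x, hx, rfl⟩ := y2
        rw [fB, mem_image]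
        exact ⟨_, mem_image_of_mem _ hx, rfl⟩
      · obtain ⟨x, hx, rfl⟩ := y3
        rw [fC, mem_image]
        exact ⟨_, mem_image_of_mem _ hx, by simp only [phi_add]⟩
      · obtain ⟨x, hx, rfl⟩ := y4
        rw [fD, mem_image]
        exact ⟨_, mem_image_of_mem _ hx, by simp only [phi_add]⟩
    have hc2' : ((fI V).card : ℝ) ≤
        ((fI (V.image (fun x => (phi H x.1, phi H x.2.1, phi H x.2.2)))).card : ℝ) := by
      exact_mod_cast hc2
    refine le_trans ?_ (hV.trans hc2')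
    apply mul_le_mul_of_nonneg_left hc1
    linarith

end Pool.Agent.Helper39.Triples
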